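import Pool.Agent.H96.NU.Riesz

/-!
# MP_dd05ac_mp: the case `t = 2`, `s ≥ 56`

`V2` is the hexagonal lattice of covolume `1`, `Om2` its half-open fundamental cell, `Kp s L` the
periodic Riesz kernel for `s > 2` (a function of `x - y`), `Ep` the energy and `EpMin` its infimum.
`grid m` enumerates `(1 / m) V2 ∩ Om2`.
-/

set_option autoImplicit false

open Real Set Filter Topology
open Pool.Agent.H96.UO (V2 Om2 grid Ep EpMin zetaL IsHex)

namespace Pool.Agent.Results.MP_dd05ac_mp.PlanarRieszLargeS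

theorem result (s : ℝ) (hs : 56 ≤ s) :
    -- the configurations `(1 / m) V2 ∩ Om2` are optimal
    (∀ m : ℕ, 0 < m → Function.Injective (grid m) ∧
      Set.range (grid m) = {z | z ∈ Om2 ∧ (m : ℂ) * z ∈ V2} ∧
      Ep s V2 (grid m) = EpMin s V2 Om2 (m ^ 2)) ∧
    -- the value of `C_{s,2}`
    ((∀ N : ℕ, 0 < N → ∃ r : ℝ, EpMin s V2 Om2 N = r) ∧
      Tendsto (fun N : ℕ => (EpMin s V2 Om2 N).toReal / (N : ℝ) ^ (1 + s / 2)) atTop
        (𝓝 (zetaL s V2))) ∧
    -- a sharp lower bound for every number of points and every lattice of covolume one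
    (∀ (L : Submodule ℤ ℂ) [DiscreteTopology L] [IsZLattice ℝ L] (N : ℕ) (x : Fin N → ℂ),
      ZLattice.covolume L = 1 → 0 < N →
      (((N : ℝ) ^ (1 + s / 2) * zetaL s V2 - N * zetaL s L -
        N * (N - 1) * (2 * π / (Real.Gamma (s / 2) * (s - 2))) : ℝ) : EReal) ≤ Ep s L x ∧
      (Ep s L x = (((N : ℝ) ^ (1 + s / 2) * zetaL s V2 - N * zetaL s L -
        N * (N - 1) * (2 * π / (Real.Gamma (s / 2) * (s - 2))) : ℝ) : EReal) ↔
        (∀ i j, x i - x j ∈ L → i = j) ∧ IsHex L x (2 / √3 * (1 / N)))) :=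
  ⟨fun _ hm => ⟨Pool.Agent.H96.UO.grid_inj hm, Pool.Agent.H96.UO.range_grid hm, Pool.Agent.H96.NU.grid_optimal hs hm⟩, Pool.Agent.H96.NU.tendsto_EpMin hs,
    fun _ _ _ _ x hL hN => Pool.Agent.H96.NU.Ep_ge hs hN hL x⟩

end Pool.Agent.Results.MP_dd05ac_mp.PlanarRieszLargeS
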